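import Pool.Agent.helper77.BND.SpecB

/-!
# Row bnd:BEV (MP_376aaf_an): evaluation at a letter
-/

set_option autoImplicit false

open scoped Topology Matrix
open Filter Finset

namespace Pool.Agent.BND

open Pool.Agent.CZ Pool.Agent.PV

theorem BEV (hBFG : BFG_stmt) (hBFE : BFE_stmt) (hBFA : BFA_stmt) (hBFM : BFM_stmt) : BEV_stmt := by
  intro B M _ α A _ ι u c hC S hS m e s he hs
  have hin : ∀ a : S m, InS B ι u c m (a : A) := fun a => (hS.mem m a).1 a.2
  have hG : ∀ a : S m, ∃ G, IsFm (B.L m) G ∧ Fam B c m (a : A) G := fun a => hBFG B M α A ι u c hC m a (hin a)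
  choose G hG1 hG2 using hG
  have key : ∀ (a : S m) (G' : ℕ → ℝ → ℕ → ℕ → ℂ), Fam B c m (a : A) G' → ∀ i j, i < (B.L m).h e → j < (B.L m).h e →
      G a e s i j = G' e s i j := by
    intro a G' h' i j hi hj
    exact (hBFE B M α A ι u c hC m a a (G a) G' (hin a) (hin a) (hG2 a) h').1 rfl e s i j he hs hi hj
  obtain ⟨⟨-, f1⟩, f2, f3⟩ := hBFA B M α A ι u c hC m
  refine ⟨{ toFun := fun a => Matrix.of fun i j => G a e s i j
            map_one' := ?_
            map_mul' := ?_
            map_zero' := ?_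
            map_add' := ?_ }, ?_⟩
  · ext i j
    rw [Matrix.of_apply, key 1 _ f1 i j i.2 j.2, Matrix.one_apply]
    simp only [Fin.ext_iff]
  · intro a b
    have hab := (hBFM B M α A ι u c hC m a b (G a) (G b) (hin a) (hin b) (hG1 a) (hG1 b) (hG2 a) (hG2 b)).2
    ext i j
    rw [Matrix.of_apply, key (a * b) _ hab i j i.2 j.2, Matrix.mul_apply, Finset.sum_range]
    rfl
  · have h0 := (f3 0 1 _ ((hS.mem m 1).1 (S m).one_mem) f1).2
    rw [zero_smul] at h0
    ext i j
    rw [Matrix.of_apply, key 0 _ h0 i j i.2 j.2, zero_mul]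
    rfl
  · intro a b
    have hab := (f2 a b (G a) (G b) (hin a) (hin b) (hG2 a) (hG2 b)).2
    ext i j
    rw [Matrix.of_apply, key (a + b) _ hab i j i.2 j.2]
    rfl
  · intro a G' h' i j
    exact key a G' h' i j i.2 j.2

end Pool.Agent.BND
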