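import Pool.Agent.helper53.BND.SpecL

/-!
# Row bnd:LEX (MP_376aaf_an): families which are the identity at the vertices, without winding numbers
-/

set_option autoImplicit false

open scoped Topology Matrix
open Filter Finset

namespace Pool.Agent.BND

open Pool.Agent.CZ Pool.Agent.PV

theorem LEX_fl (h : ℕ → ℕ) : ∀ (u : List ℕ) (i : ℕ), i < (u.map h).sum →
    (fl h u i).1 ∈ u ∧ (fl h u i).2 < h (fl h u i).1
  | [], i, hi => by simp at hi
  | a :: u, i, hi => by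
    rw [List.map_cons, List.sum_cons] at hi
    unfold fl
    split_ifs with h1
    · exact ⟨List.mem_cons_self, h1⟩
    · have := LEX_fl h u (i - h a) (by omega)
      exact ⟨List.mem_cons_of_mem _ this.1, this.2⟩

theorem LEX_bd (hBDM : BDM_stmt) (l : Lv) (hl : IsLv l) (e : ℕ) (he : e < l.N) (b : Bool) (t : Prop) [Decidable t]
    (x : ℕ → ℕ → ℕ → ℂ) (hx : ∀ v p q, v < l.n → p < l.h v → q < l.h v → x v p q = if t ∧ p = q then 1 else 0)
    (i j : ℕ) (hi : i < l.h e) (hj : j < l.h e) :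
    bd l.h (l.W e b) x i j = if t ∧ i = j then 1 else 0 := by
  have hht := hl.ht e he b
  rw [← hht] at hi hj
  obtain ⟨-, -, h3, h4, -⟩ := hBDM l.h (l.W e b)
  have e3 := h3 i j hi hj
  unfold bd at e3 ⊢
  by_cases hfp : fp l.h (l.W e b) i = fp l.h (l.W e b) j
  · rw [if_pos hfp] at e3 ⊢
    have h1 := LEX_fl l.h (l.W e b) i hi
    have h2 := LEX_fl l.h (l.W e b) j hj
    have h41 := (h4 i j hi hj hfp).1
    rw [hx _ _ _ (hl.mem e he b _ h1.1) h1.2 (by rw [h41]; exact h2.2)]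
    by_cases ht : t
    · simp only [ht, true_and]
      exact e3
    · simp only [ht, false_and, if_false]
  · rw [if_neg hfp] at e3 ⊢
    by_cases hij : i = j
    · rw [if_pos hij] at e3
      exact absurd e3 zero_ne_one
    · rw [if_neg]
      exact fun h => hij h.2

theorem LEX_eq (κ : Type) (K h k : ℕ) (hk : k ≤ K * h) :
    ∃ σ : (κ ⊕ Fin K) × Fin h ≃ ((κ × Fin h) ⊕ Fin k) ⊕ Fin (K * h - k),
      (∀ a i, σ (Sum.inl a, i) = Sum.inl (Sum.inl (a, i))) ∧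
      ∀ a i, (∃ t, σ (Sum.inr a, i) = Sum.inl (Sum.inr t)) ∨ ∃ t, σ (Sum.inr a, i) = Sum.inr t := by
  have hcard : Fintype.card (Fin K × Fin h) = Fintype.card (Fin k ⊕ Fin (K * h - k)) := by
    rw [Fintype.card_prod, Fintype.card_sum, Fintype.card_fin, Fintype.card_fin, Fintype.card_fin, Fintype.card_fin]
    omega
  refine ⟨(Equiv.sumProdDistrib κ (Fin K) (Fin h)).trans
    (((Equiv.refl (κ × Fin h)).sumCongr (Fintype.equivOfCardEq hcard)).trans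
      (Equiv.sumAssoc (κ × Fin h) (Fin k) (Fin (K * h - k))).symm), fun a i => rfl, fun a i => ?_⟩
  have e1 : ∀ y : Fin k ⊕ Fin (K * h - k), Fintype.equivOfCardEq hcard (a, i) = y →
      ((Equiv.sumProdDistrib κ (Fin K) (Fin h)).trans
    (((Equiv.refl (κ × Fin h)).sumCongr (Fintype.equivOfCardEq hcard)).trans
      (Equiv.sumAssoc (κ × Fin h) (Fin k) (Fin (K * h - k))).symm)) (Sum.inr a, i) =
      (Equiv.sumAssoc (κ × Fin h) (Fin k) (Fin (K * h - k))).symm (Sum.inr y) := by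
    rintro y rfl
    rfl
  rcases hy : Fintype.equivOfCardEq hcard (a, i) with t | t
  · exact Or.inl ⟨t, e1 _ hy⟩
  · exact Or.inr ⟨t, e1 _ hy⟩

theorem LEX_blk {p q r : Type} [DecidableEq p] [DecidableEq q] [DecidableEq r] (X : Matrix p p ℂ) (y z : (p ⊕ q) ⊕ r)
    (hy : (∃ t, y = Sum.inl (Sum.inr t)) ∨ ∃ t, y = Sum.inr t) :
    (Matrix.fromBlocks (Matrix.fromBlocks X 0 0 1) 0 0 1 : Matrix ((p ⊕ q) ⊕ r) ((p ⊕ q) ⊕ r) ℂ) y z =
      (if y = z then 1 else 0) ∧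
    (Matrix.fromBlocks (Matrix.fromBlocks X 0 0 1) 0 0 1 : Matrix ((p ⊕ q) ⊕ r) ((p ⊕ q) ⊕ r) ℂ) z y =
      (if z = y then 1 else 0) := by
  rcases hy with ⟨t, rfl⟩ | ⟨t, rfl⟩ <;> rcases z with (z | z) | z <;> simp [Matrix.one_apply]

theorem LEX_one (κ : Type) [Fintype κ] [DecidableEq κ] (K h k : ℕ) (hk : k ≤ K * h)
    (f : ℝ → Matrix (κ × Fin h) (κ × Fin h) ℂ)
    (Γ : ℝ → ℝ → Matrix ((κ × Fin h) ⊕ Fin k) ((κ × Fin h) ⊕ Fin k) ℂ)
    (hc : ContinuousOn (fun p : ℝ × ℝ => Γ p.1 p.2) (U ×ˢ U))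
    (hd : ∀ τ ∈ U, ∀ s ∈ U, (Γ τ s).det ≠ 0)
    (h0 : ∀ s ∈ U, Γ 0 s = Matrix.fromBlocks (f s) 0 0 1) (h1 : ∀ s ∈ U, Γ 1 s = 1)
    (he : ∀ τ ∈ U, Γ τ 0 = 1 ∧ Γ τ 1 = 1) :
    ∃ X : ℝ → ℝ → Matrix ((κ ⊕ Fin K) × Fin h) ((κ ⊕ Fin K) × Fin h) ℂ,
      ContinuousOn (fun p : ℝ × ℝ => X p.1 p.2) (U ×ˢ U) ∧ (∀ τ ∈ U, ∀ s ∈ U, (X τ s).det ≠ 0) ∧
      (∀ s ∈ U, (∀ a i b j, X 0 s (Sum.inl a, i) (Sum.inl b, j) = f s (a, i) (b, j)) ∧
        (∀ a i q, X 0 s (Sum.inr a, i) q = if (Sum.inr a, i) = q then 1 else 0) ∧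
        ∀ a i q, X 0 s q (Sum.inr a, i) = if q = (Sum.inr a, i) then 1 else 0) ∧
      (∀ s ∈ U, X 1 s = 1) ∧ ∀ τ ∈ U, X τ 0 = 1 ∧ X τ 1 = 1 := by
  obtain ⟨σ, s1, s2⟩ := LEX_eq κ K h k hk
  have hs2 : ∀ a i, (∃ t, σ (Sum.inr a, i) = Sum.inl (Sum.inr t)) ∨ ∃ t, σ (Sum.inr a, i) = Sum.inr t := s2
  have hone : ∀ τ s, Γ τ s = 1 → (Matrix.fromBlocks (Γ τ s) 0 0 (1 : Matrix (Fin (K * h - k)) (Fin (K * h - k)) ℂ)).submatrix σ σ = 1 := by
    intro τ s h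
    rw [h, Matrix.fromBlocks_one, Matrix.submatrix_one_equiv]
  refine ⟨fun τ s => (Matrix.fromBlocks (Γ τ s) 0 0 (1 : Matrix (Fin (K * h - k)) (Fin (K * h - k)) ℂ)).submatrix σ σ,
    ?_, ?_, ?_, fun s hs => hone 1 s (h1 s hs), fun τ hτ => ⟨hone τ 0 (he τ hτ).1, hone τ 1 (he τ hτ).2⟩⟩
  · have hcm : Continuous (fun Y : Matrix ((κ × Fin h) ⊕ Fin k) ((κ × Fin h) ⊕ Fin k) ℂ =>
        (Matrix.fromBlocks Y 0 0 (1 : Matrix (Fin (K * h - k)) (Fin (K * h - k)) ℂ)).submatrix σ σ) :=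
      (Continuous.matrix_fromBlocks continuous_id continuous_const continuous_const continuous_const).matrix_submatrix σ σ
    exact hcm.comp_continuousOn hc
  · intro τ hτ s hs
    simp only
    rw [Matrix.det_submatrix_equiv_self, Matrix.det_fromBlocks_zero₂₁, Matrix.det_one, mul_one]
    exact hd τ hτ s hs
  · intro s hs
    simp only [h0 s hs, Matrix.submatrix_apply]
    refine ⟨?_, ?_, ?_⟩
    · intro a i b j
      rw [s1, s1, Matrix.fromBlocks_apply₁₁, Matrix.fromBlocks_apply₁₁]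
    · intro a i q
      rw [(LEX_blk (f s) (σ (Sum.inr a, i)) (σ q) (hs2 a i)).1]
      simp only [EmbeddingLike.apply_eq_iff_eq]
    · intro a i q
      rw [(LEX_blk (f s) (σ (Sum.inr a, i)) (σ q) (hs2 a i)).2]
      simp only [EmbeddingLike.apply_eq_iff_eq]

/-- the family of the matrices `X e s` at the bands and of the identity at the vertices -/
noncomputable def LEX_G (l : Lv) {κ' : Type} [DecidableEq κ']
    (X : ∀ e : ℕ, ℝ → Matrix (κ' × Fin (l.h e)) (κ' × Fin (l.h e)) ℂ) (a b : κ') (e : ℕ) (s : ℝ) (i j : ℕ) : ℂ :=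
  if hij : i < l.h e ∧ j < l.h e then
    (if l.n ≤ e ∧ e < l.N then X e s (a, ⟨i, hij.1⟩) (b, ⟨j, hij.2⟩) else if a = b ∧ i = j then 1 else 0) else 0

theorem LEX_band (l : Lv) {κ' : Type} [DecidableEq κ']
    (X : ∀ e : ℕ, ℝ → Matrix (κ' × Fin (l.h e)) (κ' × Fin (l.h e)) ℂ) (a b : κ') (e : ℕ) (s : ℝ) (i j : ℕ)
    (h1 : l.n ≤ e) (h2 : e < l.N) (hi : i < l.h e) (hj : j < l.h e) :
    LEX_G l X a b e s i j = X e s (a, ⟨i, hi⟩) (b, ⟨j, hj⟩) := by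
  unfold LEX_G
  rw [dif_pos ⟨hi, hj⟩, if_pos ⟨h1, h2⟩]

theorem LEX_vtx (l : Lv) {κ' : Type} [DecidableEq κ']
    (X : ∀ e : ℕ, ℝ → Matrix (κ' × Fin (l.h e)) (κ' × Fin (l.h e)) ℂ) (a b : κ') (e : ℕ) (s : ℝ) (i j : ℕ)
    (h1 : e < l.n) (hi : i < l.h e) (hj : j < l.h e) :
    LEX_G l X a b e s i j = if a = b ∧ i = j then 1 else 0 := by
  unfold LEX_G
  rw [dif_pos ⟨hi, hj⟩, if_neg (by omega)]

theorem LEX_mxb (l : Lv) {κ' : Type} [DecidableEq κ']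
    (X : ∀ e : ℕ, ℝ → Matrix (κ' × Fin (l.h e)) (κ' × Fin (l.h e)) ℂ) (e : ℕ) (s : ℝ)
    (h1 : l.n ≤ e) (h2 : e < l.N) : mx l (LEX_G l X) e s = X e s := by
  ext ⟨a, i⟩ ⟨b, j⟩
  exact LEX_band l X a b e s i j h1 h2 i.2 j.2

theorem LEX_mxv (l : Lv) {κ' : Type} [DecidableEq κ']
    (X : ∀ e : ℕ, ℝ → Matrix (κ' × Fin (l.h e)) (κ' × Fin (l.h e)) ℂ) (e : ℕ) (s : ℝ)
    (h1 : e < l.n) : mx l (LEX_G l X) e s = 1 := by
  ext ⟨a, i⟩ ⟨b, j⟩
  refine (LEX_vtx l X a b e s i j h1 i.2 j.2).trans ?_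
  rw [Matrix.one_apply]
  simp only [Prod.mk.injEq, Fin.ext_iff]

theorem LEX_isGF (hBDM : BDM_stmt) (l : Lv) (hl : IsLv l) {κ' : Type} [Fintype κ'] [DecidableEq κ']
    (X : ∀ e : ℕ, ℝ → Matrix (κ' × Fin (l.h e)) (κ' × Fin (l.h e)) ℂ)
    (hc : ∀ e, l.n ≤ e → e < l.N → ContinuousOn (X e) U)
    (hd : ∀ e, l.n ≤ e → e < l.N → ∀ s ∈ U, (X e s).det ≠ 0)
    (h0 : ∀ e, l.n ≤ e → e < l.N → X e 0 = 1) (h1 : ∀ e, l.n ≤ e → e < l.N → X e 1 = 1) :
    IsGF l (LEX_G l X) := by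
  refine ⟨fun a b => ⟨?_, ?_, ?_⟩, ?_⟩
  · intro e i j he hi hj
    rcases lt_or_ge e l.n with hn | hn
    · simp only [LEX_vtx l X a b e _ i j hn hi hj]
      exact continuousOn_const
    · simp only [LEX_band l X a b e _ i j hn he hi hj]
      exact ((continuous_id.matrix_elem (a, (⟨i, hi⟩ : Fin (l.h e))) (b, (⟨j, hj⟩ : Fin (l.h e)))).comp_continuousOn (hc e hn he))
  · intro e s i j hn hs hi hj
    rw [LEX_vtx l X a b e s i j hn hi hj, LEX_vtx l X a b e 0 i j hn hi hj]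
  · intro e i j b' he hi hj
    have h2 := LEX_bd hBDM l hl e he b' (a = b) (fun v => LEX_G l X a b v 0)
      (fun v p q hv hp hq => LEX_vtx l X a b v 0 p q hv hp hq) i j hi hj
    rw [h2]
    rcases lt_or_ge e l.n with hn | hn
    · rw [LEX_vtx l X a b e _ i j hn hi hj]
    · rw [LEX_band l X a b e _ i j hn he hi hj]
      have h3 : X e (if b' then 1 else 0) = 1 := by
        cases b'
        · simpa using h0 e hn he
        · simpa using h1 e hn he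
      rw [h3, Matrix.one_apply]
      simp only [Prod.mk.injEq, Fin.mk.injEq]
  · intro e s he hs
    rcases lt_or_ge e l.n with hn | hn
    · rw [LEX_mxv l X e s hn, Matrix.det_one]
      exact one_ne_zero
    · rw [LEX_mxb l X e s hn he]
      exact hd e hn he s hs

theorem LEX_congr (B : BS) [CompactSpace ↥(XS B)] {A : Type} [CStarAlgebra A] (c : ℤ → A →ₗ[ℂ] C(↥(XS B), ℂ)) (m : ℕ)
    (a : A) (G G' : ℕ → ℝ → ℕ → ℕ → ℂ)
    (h : ∀ e s i j, e < (B.L m).N → s ∈ U → i < (B.L m).h e → j < (B.L m).h e → G e s i j = G' e s i j)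
    (hG : Fam B c m a G) : Fam B c m a G' := by
  intro x e s i he hs hi hx n
  rw [hG x e s i he hs hi hx n]
  split_ifs with hn
  · exact h e s i _ he hs hi (by omega)
  · rfl

theorem LEX_fam (hBFA : BFA_stmt) (B : BS) (M : ℕ → ℕ → ℕ → ℕ) [CompactSpace ↥(XS B)] (α : ↥(XS B) ≃ₜ ↥(XS B)) (A : Type) [CStarAlgebra A]
    (ι : C(↥(XS B), ℂ) →⋆ₐ[ℂ] A) (u : unitary A) (c : ℤ → A →ₗ[ℂ] C(↥(XS B), ℂ)) (hC : CPr B M α ι u c) (m : ℕ)
    (t : Prop) [Decidable t] : Fam B c m (if t then 1 else 0) fun _ _ i j => if t ∧ i = j then 1 else 0 := by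
  obtain ⟨⟨f0, f1⟩, -, f3⟩ := hBFA B M α A ι u c hC m
  by_cases ht : t
  · simp only [ht, if_true, true_and]
    exact f1
  · simp only [ht, if_false, false_and]
    have h0 := (f3 0 1 _ f0 f1).2
    rw [zero_smul] at h0
    simp only [zero_mul] at h0
    exact h0

theorem LEX (hLLP : LLP_stmt) (hLHT : LHT_stmt) (hBDM : BDM_stmt) (hBFA : BFA_stmt) (hK1B : K1B_stmt)
    (hK1M : K1M_stmt) : LEX_stmt := by
  intro B M _ α A _ ι u c hC S hS m κ _ _ f F μ hF hHF hv hb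
  have hl : IsLv (B.L m) := hC.bs.lv m
  have h01 : (0 : ℝ) ∈ U := ⟨le_rfl, zero_le_one⟩
  have h11 : (1 : ℝ) ∈ U := ⟨zero_le_one, le_rfl⟩
  have hend : ∀ e (b : Bool), e < (B.L m).N → mx (B.L m) F e (if b then 1 else 0) = 1 := by
    intro e b he
    ext ⟨a, i⟩ ⟨b', j⟩
    have h2 := LEX_bd hBDM (B.L m) hl e he b (a = b') (fun v => F a b' v 0) (fun v p q hv' hp hq => by
      have := congrFun (congrFun (hv v hv') (a, ⟨p, hp⟩)) (b', ⟨q, hq⟩)
      rw [Matrix.one_apply] at this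
      simp only [Prod.mk.injEq, Fin.mk.injEq] at this
      exact this) i j i.2 j.2
    change F a b' e (if b then 1 else 0) i j = _
    rw [(hF.fm a b').ends e i j b he i.2 j.2, h2, Matrix.one_apply]
    simp only [Prod.mk.injEq, Fin.ext_iff]
  have hL : ∀ e, ∃ (k : ℕ) (Γ : ℝ → ℝ → Matrix ((κ × Fin ((B.L m).h e)) ⊕ Fin k) ((κ × Fin ((B.L m).h e)) ⊕ Fin k) ℂ),
      (B.L m).n ≤ e → e < (B.L m).N → ContinuousOn (fun p : ℝ × ℝ => Γ p.1 p.2) (U ×ˢ U) ∧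
      (∀ τ ∈ U, ∀ s ∈ U, (Γ τ s).det ≠ 0) ∧ (∀ s ∈ U, Γ 0 s = Matrix.fromBlocks (mx (B.L m) F e s) 0 0 1) ∧
      (∀ s ∈ U, Γ 1 s = 1) ∧ ∀ τ ∈ U, Γ τ 0 = 1 ∧ Γ τ 1 = 1 := by
    intro e
    by_cases hbe : (B.L m).n ≤ e ∧ e < (B.L m).N
    · obtain ⟨m1, m2, m3, m4⟩ := hb e hbe.1 hbe.2
      have hcont : ContinuousOn (fun s => mx (B.L m) F e s) U := by
        refine continuousOn_pi.2 fun p => continuousOn_pi.2 fun q => ?_
        exact (hF.fm p.1 q.1).cont e p.2 q.2 hbe.2 p.2.2 q.2.2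
      have e0 : mx (B.L m) F e 0 = 1 := by simpa using hend e false hbe.2
      have e1 : mx (B.L m) F e 1 = 1 := by simpa using hend e true hbe.2
      obtain ⟨k, Γ, hΓ⟩ := hLLP (κ × Fin ((B.L m).h e)) (fun s => mx (B.L m) F e s) (μ e) hcont m1 e0 e1 m2 m3 m4
      exact ⟨k, Γ, fun _ _ => hΓ⟩
    · exact ⟨0, fun _ _ => 1, fun h1 h2 => absurd ⟨h1, h2⟩ hbe⟩
  choose kk Γ hΓ using hL
  set K : ℕ := ∑ e ∈ range (B.L m).N, kk e with hK
  have hX : ∀ e, ∃ X : ℝ → ℝ → Matrix ((κ ⊕ Fin K) × Fin ((B.L m).h e)) ((κ ⊕ Fin K) × Fin ((B.L m).h e)) ℂ,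
      (B.L m).n ≤ e → e < (B.L m).N →
      ContinuousOn (fun p : ℝ × ℝ => X p.1 p.2) (U ×ˢ U) ∧ (∀ τ ∈ U, ∀ s ∈ U, (X τ s).det ≠ 0) ∧
      (∀ s ∈ U, (∀ a i b j, X 0 s (Sum.inl a, i) (Sum.inl b, j) = mx (B.L m) F e s (a, i) (b, j)) ∧
        (∀ a i q, X 0 s (Sum.inr a, i) q = if (Sum.inr a, i) = q then 1 else 0) ∧
        ∀ a i q, X 0 s q (Sum.inr a, i) = if q = (Sum.inr a, i) then 1 else 0) ∧
      (∀ s ∈ U, X 1 s = 1) ∧ ∀ τ ∈ U, X τ 0 = 1 ∧ X τ 1 = 1 := by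
    intro e
    by_cases hbe : (B.L m).n ≤ e ∧ e < (B.L m).N
    · obtain ⟨g1, g2, g3, g4, g5⟩ := hΓ e hbe.1 hbe.2
      have hk1 : kk e ≤ K := Finset.single_le_sum (f := kk) (fun _ _ => Nat.zero_le _) (mem_range.2 hbe.2)
      have hk2 : kk e ≤ K * (B.L m).h e := hk1.trans (Nat.le_mul_of_pos_right K (hl.pos e hbe.2))
      obtain ⟨X, hX⟩ := LEX_one κ K ((B.L m).h e) (kk e) hk2 (fun s => mx (B.L m) F e s) (Γ e) g1 g2 g3 g4 g5
      exact ⟨X, fun _ _ => hX⟩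
    · exact ⟨fun _ _ => 1, fun h1 h2 => absurd ⟨h1, h2⟩ hbe⟩
  choose X hX using hX
  -- the homotopy of families
  have hGF : ∀ τ ∈ U, IsGF (B.L m) (LEX_G (B.L m) fun e => X e τ) := by
    intro τ hτ
    refine LEX_isGF hBDM (B.L m) hl (fun e => X e τ) ?_ ?_ ?_ ?_
    · intro e h1 h2
      have hc := (hX e h1 h2).1
      exact hc.comp (Continuous.prodMk continuous_const continuous_id).continuousOn (fun s hs => ⟨hτ, hs⟩)
    · intro e h1 h2 s hs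
      exact (hX e h1 h2).2.1 τ hτ s hs
    · intro e h1 h2
      exact ((hX e h1 h2).2.2.2.2 τ hτ).1
    · intro e h1 h2
      exact ((hX e h1 h2).2.2.2.2 τ hτ).2
  have hjc : ∀ (a b : κ ⊕ Fin K) (e i j : ℕ), e < (B.L m).N → i < (B.L m).h e → j < (B.L m).h e →
      ContinuousOn (fun p : ℝ × ℝ => LEX_G (B.L m) (fun e => X e p.1) a b e p.2 i j) (U ×ˢ U) := by
    intro a b e i j he hi hj
    rcases lt_or_ge e (B.L m).n with hn | hn
    · simp only [LEX_vtx (B.L m) _ a b e _ i j hn hi hj]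
      exact continuousOn_const
    · simp only [LEX_band (B.L m) _ a b e _ i j hn he hi hj]
      exact ((continuous_id.matrix_elem (a, (⟨i, hi⟩ : Fin ((B.L m).h e)))
        (b, (⟨j, hj⟩ : Fin ((B.L m).h e)))).comp_continuousOn (hX e hn he).1)
  -- the two units
  let g₀ : (Matrix (κ ⊕ Fin K) (κ ⊕ Fin K) (S m))ˣ :=
    ⟨Matrix.fromBlocks (f : Matrix κ κ (S m)) 0 0 1, Matrix.fromBlocks ((f⁻¹ : (Matrix κ κ (S m))ˣ) : Matrix κ κ (S m)) 0 0 1, by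
      rw [Matrix.fromBlocks_multiply]
      simp, by
      rw [Matrix.fromBlocks_multiply]
      simp⟩
  have hone : HF B c m ((1 : (Matrix (κ ⊕ Fin K) (κ ⊕ Fin K) (S m))ˣ) : Matrix (κ ⊕ Fin K) (κ ⊕ Fin K) (S m))
      (LEX_G (B.L m) fun e => X e 1) := by
    intro a b
    have e1 : ((((1 : (Matrix (κ ⊕ Fin K) (κ ⊕ Fin K) (S m))ˣ) : Matrix (κ ⊕ Fin K) (κ ⊕ Fin K) (S m)) a b : S m) : A) =
        if a = b then 1 else 0 := by
      rw [Units.val_one, Matrix.one_apply]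
      split_ifs <;> rfl
    rw [e1]
    refine LEX_congr B c m _ _ _ ?_ (LEX_fam hBFA B M α A ι u c hC m (a = b))
    intro e s i j he hs hi hj
    rcases lt_or_ge e (B.L m).n with hn | hn
    · rw [LEX_vtx (B.L m) _ a b e s i j hn hi hj]
    · rw [LEX_band (B.L m) _ a b e s i j hn he hi hj, (hX e hn he).2.2.2.1 s hs, Matrix.one_apply]
      simp only [Prod.mk.injEq, Fin.mk.injEq]
  have hzero : HF B c m (g₀ : Matrix (κ ⊕ Fin K) (κ ⊕ Fin K) (S m)) (LEX_G (B.L m) fun e => X e 0) := by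
    have hdiag : ∀ a b : κ ⊕ Fin K, ((∃ t, a = Sum.inr t) ∨ ∃ t, b = Sum.inr t) →
        Fam B c m (if a = b then 1 else 0) (LEX_G (B.L m) (fun e => X e 0) a b) := by
      intro a b hab
      refine LEX_congr B c m _ _ _ ?_ (LEX_fam hBFA B M α A ι u c hC m (a = b))
      intro e s i j he hs hi hj
      rcases lt_or_ge e (B.L m).n with hn | hn
      · rw [LEX_vtx (B.L m) _ a b e s i j hn hi hj]
      · rw [LEX_band (B.L m) _ a b e s i j hn he hi hj]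
        rcases hab with ⟨t, rfl⟩ | ⟨t, rfl⟩
        · rw [((hX e hn he).2.2.1 s hs).2.1]
          simp only [Prod.mk.injEq, Fin.mk.injEq]
        · rw [((hX e hn he).2.2.1 s hs).2.2]
          simp only [Prod.mk.injEq, Fin.mk.injEq]
    intro a b
    rcases a with a | a
    · rcases b with b | b
      · change Fam B c m (((f : Matrix κ κ (S m)) a b : S m) : A) _
        refine LEX_congr B c m _ _ _ ?_ (hHF a b)
        intro e s i j he hs hi hj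
        rcases lt_or_ge e (B.L m).n with hn | hn
        · rw [LEX_vtx (B.L m) _ _ _ e s i j hn hi hj, (hF.fm a b).vtx e s i j hn hs hi hj]
          have := congrFun (congrFun (hv e hn) (a, ⟨i, hi⟩)) (b, ⟨j, hj⟩)
          rw [Matrix.one_apply] at this
          simp only [Prod.mk.injEq, Fin.mk.injEq] at this
          simp only [Sum.inl.injEq]
          exact this
        · rw [LEX_band (B.L m) _ _ _ e s i j hn he hi hj, ((hX e hn he).2.2.1 s hs).1]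
          rfl
      · have h := hdiag (Sum.inl a) (Sum.inr b) (Or.inr ⟨b, rfl⟩)
        rw [if_neg (by simp)] at h
        exact h
    · rcases b with b | b
      · have h := hdiag (Sum.inr a) (Sum.inl b) (Or.inl ⟨a, rfl⟩)
        rw [if_neg (by simp)] at h
        exact h
      · have h := hdiag (Sum.inr a) (Sum.inr b) (Or.inl ⟨a, rfl⟩)
        have e1 : (((g₀ : Matrix (κ ⊕ Fin K) (κ ⊕ Fin K) (S m)) (Sum.inr a) (Sum.inr b) : S m) : A) =
            if (Sum.inr a : κ ⊕ Fin K) = Sum.inr b then 1 else 0 := by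
          change (((1 : Matrix (Fin K) (Fin K) (S m)) a b : S m) : A) = _
          rw [Matrix.one_apply]
          simp only [Sum.inr.injEq]
          split_ifs <;> rfl
        rw [e1]
        exact h
  have hk := hLHT B M α A ι u c hC S hS m (κ ⊕ Fin K) (fun τ => LEX_G (B.L m) fun e => X e τ) hGF hjc g₀ 1 hzero hone
  have hk2 := hK1B (S m) κ (Fin K) f 1 g₀ (by rw [Units.val_one])
  have hk3 := (hK1M (S m) (κ ⊕ Fin K) 1 1).2.2.1
  have hk4 := (hK1M (S m) (Fin K) 1 1).2.2.1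
  rw [hk, hk3, hk4, add_zero] at hk2
  exact hk2.symm

end Pool.Agent.BND
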